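import Pool.Agent.E8helper8.EC.Stm

/-! Project EC, piece TW. -/

set_option autoImplicit false
set_option linter.unusedVariables false

open CategoryTheory Simplicial Opposite unitInterval

namespace Pool.Agent.E8helper9.EC

open Pool.Agent.E8helper8.EC

theorem rmap_id (X : SSet.{0}) : rmap (𝟙 X) = ContinuousMap.id _ := by
  unfold rmap
  rw [CategoryTheory.Functor.map_id]
  rfl

theorem rmap_comp {X Y Z : SSet.{0}} (f : X ⟶ Y) (g : Y ⟶ Z) :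
    rmap (f ≫ g) = (rmap g).comp (rmap f) := by
  unfold rmap
  rw [CategoryTheory.Functor.map_comp]
  rfl

theorem rmap_comp_apply {X Y Z : SSet.{0}} (f : X ⟶ Y) (g : Y ⟶ Z) (p : Rl X) :
    rmap g (rmap f p) = rmap (f ≫ g) p := by
  rw [rmap_comp]
  rfl

variable {G : Type} {u : G → G → ℤ}

theorem sh_comp (k l : ℤ) : sh u k ≫ sh u l = sh u (k + l) := by
  ext n v
  apply Subtype.ext
  funext i
  show ((v.1 i).1, (v.1 i).2 + k + l) = ((v.1 i).1, (v.1 i).2 + (k + l))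
  rw [add_assoc]

theorem sh_zero : sh u 0 = 𝟙 _ := by
  ext n v
  apply Subtype.ext
  funext i
  show ((v.1 i).1, (v.1 i).2 + 0) = v.1 i
  rw [add_zero]

theorem sh_sh (k l : ℤ) (p : Rl (Cv u Set.univ)) :
    rmap (sh u l) (rmap (sh u k) p) = rmap (sh u (k + l)) p := by
  rw [rmap_comp_apply, sh_comp]

theorem sh_zero_apply (p : Rl (Cv u Set.univ)) : rmap (sh u 0) p = p := by
  rw [sh_zero, rmap_id]
  rfl

theorem sh_neg (k : ℤ) (p : Rl (Cv u Set.univ)) :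
    rmap (sh u (-k)) (rmap (sh u k) p) = p := by
  rw [sh_sh, add_neg_cancel, sh_zero_apply]

theorem neg_sh (k : ℤ) (p : Rl (Cv u Set.univ)) :
    rmap (sh u k) (rmap (sh u (-k)) p) = p := by
  rw [sh_sh, neg_add_cancel, sh_zero_apply]

/-- shift of a finite part -/
def shF (u : G → G → ℤ) (F : Set (G × ℤ)) (k : ℤ) :
    Cv u F ⟶ Cv u ((fun v : G × ℤ => (v.1, v.2 + k)) '' F) :=
  vmap _ _ (fun v => (v.1, v.2 + k)) fun _ _ hv =>
    ⟨fun i j => by have := hv.1 i j; simp only [Function.comp]; omega,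
      fun i => ⟨_, hv.2 i, rfl⟩⟩

theorem FT_sh {A : Type} [TopologicalSpace A] {f : C(A, Rl (Cv u Set.univ))} (h : FT u f)
    (k : ℤ) : FT u ((rmap (sh u k)).comp f) := by
  obtain ⟨F, hF, f', hf⟩ := h
  refine ⟨_, hF.image (fun v : G × ℤ => (v.1, v.2 + k)), (rmap (shF u F k)).comp f', fun a => ?_⟩
  rw [ContinuousMap.comp_apply, hf, ContinuousMap.comp_apply, rmap_comp_apply, rmap_comp_apply]
  rfl

theorem FT_comp {A B : Type} [TopologicalSpace A] [TopologicalSpace B]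
    {f : C(A, Rl (Cv u Set.univ))} (h : FT u f) (g : C(B, A)) : FT u (f.comp g) := by
  obtain ⟨F, hF, f', hf⟩ := h
  exact ⟨F, hF, f'.comp g, fun a => hf _⟩

/-- enlarging the finite part -/
theorem lift_mono {A : Type} [TopologicalSpace A] {f : C(A, Rl (Cv u Set.univ))}
    {F F' : Set (G × ℤ)} (hFF : F ⊆ F') (f' : C(A, Rl (Cv u F)))
    (hf : ∀ a, f a = rmap (inc u (Set.subset_univ F)) (f' a)) :
    ∃ f'' : C(A, Rl (Cv u F')), ∀ a, f a = rmap (inc u (Set.subset_univ F')) (f'' a) := by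
  refine ⟨(rmap (inc u hFF)).comp f', fun a => ?_⟩
  rw [hf, ContinuousMap.comp_apply, rmap_comp_apply]
  rfl

theorem inc_mono {F F' : Set (G × ℤ)} (h : F ⊆ F') : Mono (inc u h) := by
  rw [NatTrans.mono_iff_mono_app]
  intro n
  rw [mono_iff_injective]
  intro v v' hv
  apply Subtype.ext
  have := congrArg Subtype.val hv
  exact this

theorem push_id (n : ℕ) (x : Dl n) : push (𝟙 ⦋n⦌) x = x := by
  show stdSimplex.map (⇑(𝟙 ⦋n⦌ : ⦋n⦌ ⟶ ⦋n⦌).toOrderHom) x = x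
  rw [show (⇑(𝟙 ⦋n⦌ : ⦋n⦌ ⟶ ⦋n⦌).toOrderHom : Fin (n + 1) → Fin (n + 1)) = id from rfl]
  exact stdSimplex.map_id_apply x

theorem push_apply {l m : ℕ} (β : ⦋l⦌ ⟶ ⦋m⦌) (x : Dl l) :
    push β x = stdSimplex.map (⇑β.toOrderHom) x := rfl

theorem push_comp {l m n : ℕ} (β : ⦋l⦌ ⟶ ⦋m⦌) (α : ⦋m⦌ ⟶ ⦋n⦌) (x : Dl l) :
    push (β ≫ α) x = push α (push β x) := by
  have h := stdSimplex.map_comp_apply (S := ℝ) (⇑β.toOrderHom) (⇑α.toOrderHom) x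
  rw [push_apply, push_apply, push_apply]
  exact h.symm

theorem map_apply_zero {m n : ℕ} (f : Fin m → Fin n) (i : Fin n) (hi : ∀ j, f j ≠ i)
    (x : stdSimplex ℝ (Fin m)) : stdSimplex.map f x i = 0 := by
  rw [stdSimplex.map_coe, FunOnFinite.linearMap_apply_apply]
  refine Finset.sum_eq_zero fun j hj => ?_
  exact absurd (Finset.mem_filter.1 hj).2 (hi j)

theorem push_eq_zero {m n : ℕ} (s : ⦋m⦌ ⟶ ⦋n⦌) (hs : ¬ Function.Surjective s.toOrderHom)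
    (x : Dl m) : ∃ i, push s x i = 0 := by
  obtain ⟨i, hi⟩ := not_forall.1 hs
  exact ⟨i, map_apply_zero _ i (fun j hj => hi ⟨j, hj⟩) x⟩

theorem rmap_ch (hR : S_REAL) {X Y : SSet.{0}} (f : X ⟶ Y) (n : ℕ) (s : X.obj (op ⦋n⦌))
    (t : Y.obj (op ⦋n⦌)) (h : f.app (op ⦋n⦌) s = t) (x : Dl n) :
    rmap f (ch X n s x) = ch Y n t x := by
  rw [← h]
  exact hR.2.2.2 X Y f n s x

/-- the lift in a finite part -/
def lf (u : G → G → ℤ) (n : ℕ) (w : (Eu u).obj (op ⦋n⦌)) (F : Set (G × ℤ))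
    (hF : ∀ i, (lft u n w).1 i ∈ F) : (Cv u F).obj (op ⦋n⦌) :=
  ⟨(lft u n w).1, (lft u n w).2.1, hF⟩

theorem lf_app (n : ℕ) (w : (Eu u).obj (op ⦋n⦌)) (F : Set (G × ℤ))
    (hF : ∀ i, (lft u n w).1 i ∈ F) :
    (inc u (Set.subset_univ F)).app (op ⦋n⦌) (lf u n w F hF) = lft u n w := rfl

theorem FT_lft (hR : S_REAL) (n : ℕ) (w : (Eu u).obj (op ⦋n⦌)) :
    FT u (ch (Cv u Set.univ) n (lft u n w)) := by
  have hF : ∀ i, (lft u n w).1 i ∈ Set.range (lft u n w).1 := fun i => ⟨i, rfl⟩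
  refine ⟨Set.range (lft u n w).1, Set.finite_range _, ch (Cv u (Set.range (lft u n w).1)) n
    (lf u n w _ hF), fun x => ?_⟩
  exact (rmap_ch hR _ n _ _ (lf_app n w _ hF) x).symm

/-- the twist -/
def cf {n m : ℕ} (w : (Eu u).obj (op ⦋n⦌)) (α : ⦋m⦌ ⟶ ⦋n⦌) : ℤ :=
  u (w.1 0) (w.1 (α.toOrderHom 0))

theorem cf_id {n : ℕ} (w : (Eu u).obj (op ⦋n⦌)) : cf w (𝟙 ⦋n⦌) = 0 := by
  have h := w.2 0 0 0
  have h2 : cf w (𝟙 ⦋n⦌) = u (w.1 0) (w.1 0) := rfl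
  rw [h2]
  omega

theorem cf_comp {n m l : ℕ} (w : (Eu u).obj (op ⦋n⦌)) (α : ⦋m⦌ ⟶ ⦋n⦌) (β : ⦋l⦌ ⟶ ⦋m⦌) :
    cf w (β ≫ α) = cf w α + cf ((Eu u).map α.op w) β := by
  have h := w.2 0 (α.toOrderHom 0) (α.toOrderHom (β.toOrderHom 0))
  exact h.symm

theorem lft_map {n m : ℕ} (w : (Eu u).obj (op ⦋n⦌)) (α : ⦋m⦌ ⟶ ⦋n⦌) :
    (sh u (cf w α)).app (op ⦋m⦌) (lft u m ((Eu u).map α.op w)) =
      (Cv u Set.univ).map α.op (lft u n w) := by
  apply Subtype.ext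
  funext i
  have h := w.2 0 (α.toOrderHom 0) (α.toOrderHom i)
  have h1 : u (w.1 (α.toOrderHom 0)) (w.1 (α.toOrderHom i)) + cf w α =
      u (w.1 0) (w.1 (α.toOrderHom i)) := by
    rw [← h]
    exact add_comm _ _
  exact Prod.ext rfl h1

theorem ch_lft (hR : S_REAL) {n m : ℕ} (w : (Eu u).obj (op ⦋n⦌)) (α : ⦋m⦌ ⟶ ⦋n⦌) (x : Dl m) :
    rmap (sh u (cf w α)) (ch _ m (lft u m ((Eu u).map α.op w)) x) =
      ch _ n (lft u n w) (push α x) := by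
  rw [rmap_ch hR _ m _ _ (lft_map w α) x]
  exact hR.1 _ n m α (lft u n w) x

/-- restriction -/
noncomputable def rr {n m : ℕ} (w : (Eu u).obj (op ⦋n⦌)) (α : ⦋m⦌ ⟶ ⦋n⦌)
    (a : C(Dl n × I, Rl (Cv u Set.univ))) : C(Dl m × I, Rl (Cv u Set.univ)) :=
  (rmap (sh u (-(cf w α)))).comp (a.comp ((push α).prodMap (ContinuousMap.id I)))

theorem rr_apply {n m : ℕ} (w : (Eu u).obj (op ⦋n⦌)) (α : ⦋m⦌ ⟶ ⦋n⦌)
    (a : C(Dl n × I, Rl (Cv u Set.univ))) (x : Dl m) (t : I) :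
    rr w α a (x, t) = rmap (sh u (-(cf w α))) (a (push α x, t)) := rfl

theorem rr_id {n : ℕ} (w : (Eu u).obj (op ⦋n⦌)) (a : C(Dl n × I, Rl (Cv u Set.univ))) :
    rr w (𝟙 ⦋n⦌) a = a := by
  ext1 ⟨x, t⟩
  rw [rr_apply, cf_id, neg_zero, sh_zero_apply, push_id]

theorem rr_comp {n m l : ℕ} (w : (Eu u).obj (op ⦋n⦌)) (α : ⦋m⦌ ⟶ ⦋n⦌) (β : ⦋l⦌ ⟶ ⦋m⦌)
    (a : C(Dl n × I, Rl (Cv u Set.univ))) :
    rr w (β ≫ α) a = rr ((Eu u).map α.op w) β (rr w α a) := by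
  ext1 ⟨x, t⟩
  rw [rr_apply, rr_apply, rr_apply, sh_sh, cf_comp, push_comp]
  congr 3
  ring

/-- the property -/
def PP (e0 : ∀ n, (Eu u).obj (op ⦋n⦌) → C(Dl n, Rl (Cv u Set.univ))) (n : ℕ)
    (w : (Eu u).obj (op ⦋n⦌)) (a : C(Dl n × I, Rl (Cv u Set.univ))) : Prop :=
  FT u a ∧ (∀ x, a (x, 0) = e0 n w x) ∧ ∀ x, a (x, 1) = ch _ n (lft u n w) x

theorem PP_rr (hR : S_REAL) (e0 : ∀ n, (Eu u).obj (op ⦋n⦌) → C(Dl n, Rl (Cv u Set.univ)))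
    (he : ∀ n m (w : (Eu u).obj (op ⦋n⦌)) (α : ⦋m⦌ ⟶ ⦋n⦌) (x : Dl m),
      rmap (sh u (cf w α)) (e0 m ((Eu u).map α.op w) x) = e0 n w (push α x))
    (n m : ℕ) (w : (Eu u).obj (op ⦋n⦌)) (α : ⦋m⦌ ⟶ ⦋n⦌) (a : C(Dl n × I, Rl (Cv u Set.univ)))
    (h : PP e0 n w a) : PP e0 m ((Eu u).map α.op w) (rr w α a) := by
  refine ⟨FT_sh (FT_comp h.1 _) _, fun x => ?_, fun x => ?_⟩
  · rw [rr_apply, h.2.1, ← he n m w α x, sh_neg]
  · rw [rr_apply, h.2.2, ← ch_lft hR, sh_neg]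

theorem inc_inc {F F' : Set (G × ℤ)} (h : F ⊆ F') (p : Rl (Cv u F)) :
    rmap (inc u (Set.subset_univ F')) (rmap (inc u h) p) =
      rmap (inc u (Set.subset_univ F)) p := by
  rw [rmap_comp_apply]
  rfl

/-- a finite part common to all faces -/
theorem common {n : ℕ} (b' : ∀ (m : ℕ) (s : ⦋m⦌ ⟶ ⦋n⦌), ¬ Function.Surjective s.toOrderHom →
      C(Dl m × I, Rl (Cv u Set.univ))) (hFT : ∀ m s hs, FT u (b' m s hs))
    (hc' : ∀ (m l : ℕ) (s : ⦋m⦌ ⟶ ⦋n⦌) (β : ⦋l⦌ ⟶ ⦋m⦌)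
      (hs : ¬ Function.Surjective s.toOrderHom)
      (hs' : ¬ Function.Surjective (β ≫ s).toOrderHom) (x : Dl l) (t : I),
      b' l (β ≫ s) hs' (x, t) = b' m s hs (push β x, t)) :
    ∃ F : Set (G × ℤ), F.Finite ∧ ∀ m s hs,
      ∃ f' : C(Dl m × I, Rl (Cv u F)), ∀ p, b' m s hs p =
        rmap (inc u (Set.subset_univ F)) (f' p) := by
  cases n with
  | zero =>
    refine ⟨∅, Set.finite_empty, fun m s hs => ?_⟩
    exfalso
    apply hs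
    intro y
    exact ⟨0, Subsingleton.elim (α := Fin 1) _ _⟩
  | succ k =>
    have hi : ∀ i : Fin (k + 2), ¬ Function.Surjective (SimplexCategory.δ i).toOrderHom := by
      intro i h
      obtain ⟨j, hj⟩ := h i
      exact Fin.succAbove_ne i j hj
    choose F hF f hf using fun i : Fin (k + 2) => hFT k (SimplexCategory.δ i) (hi i)
    refine ⟨⋃ i, F i, Set.finite_iUnion hF, fun m s hs => ?_⟩
    obtain ⟨i, θ, rfl⟩ := SimplexCategory.eq_comp_δ_of_not_surjective s hs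
    refine lift_mono (Set.subset_iUnion F i)
      ((f i).comp ((push θ).prodMap (ContinuousMap.id I))) ?_
    rintro ⟨x, t⟩
    rw [hc' k m (SimplexCategory.δ i) θ (hi i) hs x t, hf]
    rfl

/-- the extension step -/
theorem step (hR : S_REAL) (hB : S_BDRY) (hI : S_INJ) (hG : S_GLUE) (hE : S_EXT) (hN : NULL u)
    (e0 : ∀ n, (Eu u).obj (op ⦋n⦌) → C(Dl n, Rl (Cv u Set.univ)))
    (hF0 : ∀ n w, FT u (e0 n w))
    (he : ∀ n m (w : (Eu u).obj (op ⦋n⦌)) (α : ⦋m⦌ ⟶ ⦋n⦌) (x : Dl m),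
      rmap (sh u (cf w α)) (e0 m ((Eu u).map α.op w) x) = e0 n w (push α x))
    (n : ℕ) (w : (Eu u).obj (op ⦋n⦌))
    (b : ∀ (m : ℕ) (s : ⦋m⦌ ⟶ ⦋n⦌), ¬ Function.Surjective s.toOrderHom →
      C(Dl m × I, Rl (Cv u Set.univ)))
    (hb : ∀ m s hs, PP e0 m ((Eu u).map s.op w) (b m s hs))
    (hc : ∀ (m l : ℕ) (s : ⦋m⦌ ⟶ ⦋n⦌) (β : ⦋l⦌ ⟶ ⦋m⦌)
      (hs : ¬ Function.Surjective s.toOrderHom)
      (hs' : ¬ Function.Surjective (β ≫ s).toOrderHom),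
      rr ((Eu u).map s.op w) β (b m s hs) = b l (β ≫ s) hs') :
    ∃ a, PP e0 n w a ∧ ∀ m s hs, rr w s a = b m s hs := by
  -- untwist
  set b' : ∀ (m : ℕ) (s : ⦋m⦌ ⟶ ⦋n⦌), ¬ Function.Surjective s.toOrderHom →
      C(Dl m × I, Rl (Cv u Set.univ)) := fun m s hs => (rmap (sh u (cf w s))).comp (b m s hs)
    with hb'
  have hb'a : ∀ m s hs p, b' m s hs p = rmap (sh u (cf w s)) (b m s hs p) := fun _ _ _ _ => rfl
  have hc' : ∀ (m l : ℕ) (s : ⦋m⦌ ⟶ ⦋n⦌) (β : ⦋l⦌ ⟶ ⦋m⦌)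
      (hs : ¬ Function.Surjective s.toOrderHom)
      (hs' : ¬ Function.Surjective (β ≫ s).toOrderHom) (x : Dl l) (t : I),
      b' l (β ≫ s) hs' (x, t) = b' m s hs (push β x, t) := by
    intro m l s β hs hs' x t
    rw [hb'a, hb'a, ← hc m l s β hs hs', rr_apply, sh_sh, cf_comp]
    congr 3
    ring
  have h0' : ∀ m s hs (x : Dl m), b' m s hs (x, 0) = e0 n w (push s x) := by
    intro m s hs x
    rw [hb'a, (hb m s hs).2.1, he]
  have h1' : ∀ m s hs (x : Dl m), b' m s hs (x, 1) = ch _ n (lft u n w) (push s x) := by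
    intro m s hs x
    rw [hb'a, (hb m s hs).2.2, ch_lft hR]
  -- a common finite part
  obtain ⟨F, hF, hFb⟩ := common b' (fun m s hs => FT_sh (hb m s hs).1 _) hc'
  obtain ⟨F0, hF0f, f0, hf0⟩ := hF0 n w
  obtain ⟨F1, hF1f, f1, hf1⟩ := FT_lft hR n w
  set F' : Set (G × ℤ) := F ∪ (F0 ∪ F1) with hF'
  have hF'f : F'.Finite := hF.union (hF0f.union hF1f)
  obtain ⟨g0, hg0⟩ := lift_mono (F' := F') (fun x hx => Or.inr (Or.inl hx)) f0 hf0
  obtain ⟨g1, hg1⟩ := lift_mono (F' := F') (fun x hx => Or.inr (Or.inr hx)) f1 hf1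
  have hFb' : ∀ m s hs, ∃ f' : C(Dl m × I, Rl (Cv u F')), ∀ p, b' m s hs p =
      rmap (inc u (Set.subset_univ F')) (f' p) := by
    intro m s hs
    obtain ⟨f', hf'⟩ := hFb m s hs
    exact lift_mono (F' := F') (fun x hx => Or.inl hx) f' hf'
  choose bb hbb using hFb'
  have hinj : Function.Injective (rmap (inc u (Set.subset_univ F'))) :=
    hI hR hB _ _ _ (inc_mono _)
  obtain ⟨c, hc1, hc2, hc3⟩ := hG n (Rl (Cv u F')) bb g0 g1
    (fun m l s β hs hs' x t => by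
      apply hinj
      rw [← hbb, ← hbb]
      exact hc' m l s β hs hs' x t)
    (fun m s hs x => by
      apply hinj
      rw [← hbb, ← hg0]
      exact h0' m s hs x)
    (fun m s hs x => by
      apply hinj
      rw [← hbb, ← hg1]
      exact h1' m s hs x)
  obtain ⟨F2, hF2, hsub, hnull⟩ := hN F' hF'f
  obtain ⟨h, hh⟩ := hE n _ _ (rmap (inc u hsub)) hnull c
  have key : ∀ (p : Dl n × I) (hp : p ∈ Bd n),
      (rmap (inc u (Set.subset_univ F2))).comp h p =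
        rmap (inc u (Set.subset_univ F')) (c ⟨p, hp⟩) := by
    intro p hp
    rw [ContinuousMap.comp_apply, hh ⟨p, hp⟩, inc_inc]
  refine ⟨(rmap (inc u (Set.subset_univ F2))).comp h, ⟨⟨F2, hF2, h, fun a => rfl⟩,
    fun x => ?_, fun x => ?_⟩, fun m s hs => ?_⟩
  · have hp : (x, (0 : I)) ∈ Bd n := Or.inr (Or.inl rfl)
    rw [key (x, 0) hp, hc2 x hp, ← hg0]
  · have hp : (x, (1 : I)) ∈ Bd n := Or.inr (Or.inr rfl)
    rw [key (x, 1) hp, hc3 x hp, ← hg1]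
  · ext1 ⟨x, t⟩
    have hp : (push s x, t) ∈ Bd n := Or.inl (push_eq_zero s hs x)
    rw [rr_apply, key _ hp, hc1 m s hs x t hp, ← hbb, hb'a, sh_neg]

theorem t_TW : S_TW := by
  intro hR hB hI hS hG hE G u hN e0 hF0 he
  obtain ⟨a, ha1, ha2⟩ := hS (Eu u) (fun n => C(Dl n × I, Rl (Cv u Set.univ)))
    (fun n => PP e0 n) (fun n m w α => rr w α) (fun n w a => rr_id w a)
    (fun n m l w α β a => rr_comp w α β a) (fun n m w α a h => PP_rr hR e0 he n m w α a h)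
    (fun n w b h1 h2 => step hR hB hI hG hE hN e0 hF0 he n w b h1 h2)
  refine ⟨a, fun n m w α x t => ?_, fun n w => (ha1 n w).2.1, fun n w => (ha1 n w).2.2⟩
  rw [← ha2 n m w α]
  exact neg_sh (cf w α) _

end Pool.Agent.E8helper9.EC

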